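import Mathlib

/-! Buchberger's algorithm over the integers with S-polynomials instead of critical pairs is not
correct: it fails on the input `{2, 5}`. -/

namespace Pool.Agent.Results.MP_698df0_al.IntegerPair

open MvPolynomial

noncomputable section

variable {n : ℕ}

/-- The order `0 ≺ -1 ≺ 1 ≺ -2 ≺ 2 ≺ ...` of the integers. -/
def prec (x y : ℤ) : Prop := |x| < |y| ∨ (|x| = |y| ∧ x < y)

instance (x y : ℤ) : Decidable (prec x y) := by unfold prec; infer_instance

/-- The rank of an integer in the order `prec`. -/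
def rk (x : ℤ) : ℕ := 2 * x.natAbs + (if 0 < x then 1 else 0)

theorem rk_lt {x y : ℤ} (h : prec x y) : rk x < rk y := by
  unfold prec at h
  unfold rk
  rw [Int.abs_eq_natAbs, Int.abs_eq_natAbs] at h
  rcases h with h | ⟨h1, h2⟩
  · split_ifs <;> omega
  · have h3 : x.natAbs = y.natAbs := by omega
    split_ifs <;> omega

/-- One reduction step: `g` reduces to `h` modulo `F`. -/
def Red (m : MonomialOrder (Fin n)) (F : Finset (MvPolynomial (Fin n) ℤ))
    (g h : MvPolynomial (Fin n) ℤ) : Prop :=
  ∃ f ∈ F, f ≠ 0 ∧ ∃ (b : ℤ) (u : Fin n →₀ ℕ), coeff (u + m.degree f) g ≠ 0 ∧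
    prec (coeff (u + m.degree f) g - b * m.leadingCoeff f) (coeff (u + m.degree f) g) ∧
    h = g - monomial u b * f

/-- `h` is an irreducible element reachable from `g`. -/
def IsNF (m : MonomialOrder (Fin n)) (F : Finset (MvPolynomial (Fin n) ℤ))
    (g h : MvPolynomial (Fin n) ℤ) : Prop :=
  Relation.ReflTransGen (Red m F) g h ∧ ∀ h', ¬ Red m F h h'

/-- Normal form algorithms. -/
def IsNFAlgorithm (m : MonomialOrder (Fin n))
    (S : Finset (MvPolynomial (Fin n) ℤ) → MvPolynomial (Fin n) ℤ → MvPolynomial (Fin n) ℤ) :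
    Prop :=
  ∀ F g, IsNF m F g (S F g)

/-- Groebner bases: every `g` has exactly one irreducible element reachable from it. -/
def IsGroebner (m : MonomialOrder (Fin n)) (F : Finset (MvPolynomial (Fin n) ℤ)) : Prop :=
  ∀ g, ∃! h, IsNF m F g h

/-- The function `M(a, c)`. -/
def M (a c : ℤ) : ℤ :=
  if h : 0 < a * c ∧ prec (a - c) a then M (a - c) c + 1
  else if h : a * c < 0 ∧ prec (a + c) a then M (a + c) c - 1
  else 0
termination_by rk a
decreasing_by
  · exact rk_lt h.2
  · exact rk_lt h.2

/-- The function `L(c)`: `|c| / 2` for even `c` and `-(|c| + 1) / 2` for odd `c`. -/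
def L (c : ℤ) : ℤ := if Even c then |c| / 2 else -((|c| + 1) / 2)

/-- `LCR(c₁, c₂)`: the larger of `L(c₁)`, `L(c₂)` in the order `prec`. -/
def LCR (c₁ c₂ : ℤ) : ℤ := if prec (L c₁) (L c₂) then L c₂ else L c₁

/-- One of the two entries of the critical pair of two polynomials; here `U` is the least common
multiple of the leading power products and `a` is `LCR` of the leading coefficients. -/
def entry (m : MonomialOrder (Fin n)) (U : Fin n →₀ ℕ) (a : ℤ) (f : MvPolynomial (Fin n) ℤ) :
    MvPolynomial (Fin n) ℤ :=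
  monomial U a - monomial (U - m.degree f) (M a (m.leadingCoeff f)) * f

/-- The S-polynomial `p₁ - p₂` of `f₁`, `f₂`. -/
def spoly (m : MonomialOrder (Fin n)) (f₁ f₂ : MvPolynomial (Fin n) ℤ) :
    MvPolynomial (Fin n) ℤ :=
  entry m (m.degree f₁ ⊔ m.degree f₂) (LCR (m.leadingCoeff f₁) (m.leadingCoeff f₂)) f₁ -
  entry m (m.degree f₁ ⊔ m.degree f₂) (LCR (m.leadingCoeff f₁) (m.leadingCoeff f₂)) f₂

/-- States of the algorithm: the current basis `G` and the set `B` of unordered pairs. -/
abbrev State (n : ℕ) : Type :=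
  Finset (MvPolynomial (Fin n) ℤ) × Finset (Sym2 (MvPolynomial (Fin n) ℤ))

open Classical in
/-- All unordered pairs of different elements of `F`. -/
def allPairs (F : Finset (MvPolynomial (Fin n) ℤ)) : Finset (Sym2 (MvPolynomial (Fin n) ℤ)) :=
  F.offDiag.image fun x => s(x.1, x.2)

open Classical in
/-- One pass through the loop of Algorithm A', with an arbitrary choice of the next pair. -/
def Step (m : MonomialOrder (Fin n))
    (S : Finset (MvPolynomial (Fin n) ℤ) → MvPolynomial (Fin n) ℤ → MvPolynomial (Fin n) ℤ)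
    (x y : State n) : Prop :=
  ∃ f₁ f₂, s(f₁, f₂) ∈ x.2 ∧
    (S x.1 (spoly m f₁ f₂) = 0 → y = (x.1, x.2.erase s(f₁, f₂))) ∧
    (S x.1 (spoly m f₁ f₂) ≠ 0 →
      y = (insert (S x.1 (spoly m f₁ f₂)) x.1,
        x.2.erase s(f₁, f₂) ∪ x.1.image fun g => s(g, S x.1 (spoly m f₁ f₂))))

/-- Correctness of Algorithm A' for the term order `m`: for every input, every normal form
algorithm and every choice of pairs it terminates, and every output is a Groebner basis of the
ideal generated by the input. -/
def Correct (m : MonomialOrder (Fin n)) : Prop :=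
  ∀ (F : Finset (MvPolynomial (Fin n) ℤ)) (S), IsNFAlgorithm m S →
    (¬ ∃ x : ℕ → State n, x 0 = (F, allPairs F) ∧ ∀ k, Step m S (x k) (x (k + 1))) ∧
    ∀ G, Relation.ReflTransGen (Step m S) (F, allPairs F) (G, ∅) →
      IsGroebner m G ∧ Ideal.span (G : Set (MvPolynomial (Fin n) ℤ)) =
        Ideal.span (F : Set (MvPolynomial (Fin n) ℤ))

/-! ### Existence of normal forms -/

/-- The monomial `t` with coefficient `c` can be reduced. -/
def RA (m : MonomialOrder (Fin n)) (F : Finset (MvPolynomial (Fin n) ℤ)) (c : ℤ)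
    (t : Fin n →₀ ℕ) : Prop :=
  ∃ f ∈ F, f ≠ 0 ∧ m.degree f ≤ t ∧ c ≠ 0 ∧ ∃ b : ℤ, prec (c - b * m.leadingCoeff f) c

theorem red_of_RA {m : MonomialOrder (Fin n)} {F : Finset (MvPolynomial (Fin n) ℤ)}
    {g : MvPolynomial (Fin n) ℤ} {t : Fin n →₀ ℕ} (h : RA m F (coeff t g) t) :
    ∃ g', Red m F g g' ∧ prec (coeff t g') (coeff t g) ∧
      ∀ s, m.toSyn t < m.toSyn s → coeff s g' = coeff s g := by
  classical
  obtain ⟨f, hf, hf0, hle, hc, b, hb⟩ := h
  have hu : (t - m.degree f) + m.degree f = t := tsub_add_cancel_of_le hle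
  refine ⟨g - monomial (t - m.degree f) b * f, ⟨f, hf, hf0, b, t - m.degree f, ?_, ?_, rfl⟩,
    ?_, ?_⟩
  · rw [hu]; exact hc
  · rw [hu]; exact hb
  · rw [coeff_sub]
    have : coeff t (monomial (t - m.degree f) b * f) = b * m.leadingCoeff f := by
      conv_lhs => rw [← hu]
      rw [tsub_add_cancel_of_le hle, coeff_monomial_mul', if_pos tsub_le_self]
      congr 2
      rw [tsub_tsub_cancel_of_le hle]
    rw [this]
    exact hb
  · intro s hs
    rw [coeff_sub, coeff_monomial_mul']
    split_ifs with hle'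
    · have h1 : coeff (s - (t - m.degree f)) f = 0 := by
        apply m.coeff_eq_zero_of_lt
        have h2 : m.toSyn ((t - m.degree f) + m.degree f) <
            m.toSyn ((t - m.degree f) + (s - (t - m.degree f))) := by
          rw [hu, add_tsub_cancel_of_le hle']
          exact hs
        rw [map_add, map_add] at h2
        exact lt_of_add_lt_add_left h2
      rw [h1, mul_zero, sub_zero]
    · rw [sub_zero]

theorem not_red_of {m : MonomialOrder (Fin n)} {F : Finset (MvPolynomial (Fin n) ℤ)}
    {g : MvPolynomial (Fin n) ℤ} (h : ∀ t, ¬ RA m F (coeff t g) t) (g' : MvPolynomial (Fin n) ℤ) :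
    ¬ Red m F g g' := by
  rintro ⟨f, hf, hf0, b, u, hc, hb, -⟩
  exact h (u + m.degree f) ⟨f, hf, hf0, le_add_self, hc, b, hb⟩

theorem exists_nf_aux (m : MonomialOrder (Fin n)) (F : Finset (MvPolynomial (Fin n) ℤ)) :
    ∀ (t : m.syn) (g : MvPolynomial (Fin n) ℤ),
      (∀ s, t < m.toSyn s → ¬ RA m F (coeff s g) s) → ∃ h, IsNF m F g h := by
  classical
  intro t
  induction t using WellFoundedLT.induction with
  | ind t ih =>
    suffices H : ∀ (k : ℕ) (g : MvPolynomial (Fin n) ℤ), rk (coeff (m.toSyn.symm t) g) = k →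
        (∀ s, t < m.toSyn s → ¬ RA m F (coeff s g) s) → ∃ h, IsNF m F g h by
      intro g hg
      exact H _ g rfl hg
    intro k
    induction k using Nat.strong_induction_on with
    | _ k ihk =>
      intro g hk hg
      by_cases hra : RA m F (coeff (m.toSyn.symm t) g) (m.toSyn.symm t)
      · obtain ⟨g', hred, hprec, hco⟩ := red_of_RA hra
        have hlt : rk (coeff (m.toSyn.symm t) g') < k := by
          rw [← hk]
          exact rk_lt hprec
        obtain ⟨h, hh1, hh2⟩ := ihk _ hlt g' rfl (by
          intro s hs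
          rw [hco s (by simpa using hs)]
          exact hg s hs)
        exact ⟨h, Relation.ReflTransGen.head hred hh1, hh2⟩
      · by_cases hne : (g.support.filter fun s => RA m F (coeff s g) s).Nonempty
        · obtain ⟨s, hs, hmax⟩ := Finset.exists_max_image _ m.toSyn hne
          rw [Finset.mem_filter] at hs
          have hst : m.toSyn s < t := by
            rcases lt_trichotomy (m.toSyn s) t with h | h | h
            · exact h
            · exfalso
              apply hra
              rw [← h]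
              simpa using hs.2
            · exact absurd hs.2 (hg s h)
          apply ih (m.toSyn s) hst g
          intro s' hs' hra'
          have hmem : s' ∈ g.support.filter fun s => RA m F (coeff s g) s := by
            rw [Finset.mem_filter, mem_support_iff]
            exact ⟨hra'.choose_spec.2.2.2.1, hra'⟩
          exact absurd (hmax s' hmem) (not_le.2 hs')
        · refine ⟨g, Relation.ReflTransGen.refl, fun h' => not_red_of ?_ h'⟩
          intro s hs
          apply hne
          refine ⟨s, ?_⟩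
          rw [Finset.mem_filter, mem_support_iff]
          exact ⟨hs.choose_spec.2.2.2.1, hs⟩

theorem exists_nf (m : MonomialOrder (Fin n)) (F : Finset (MvPolynomial (Fin n) ℤ))
    (g : MvPolynomial (Fin n) ℤ) : ∃ h, IsNF m F g h := by
  apply exists_nf_aux m F (m.toSyn (m.degree g)) g
  rintro s hs ⟨f, _, _, _, hc, _⟩
  exact hc (m.coeff_eq_zero_of_lt hs)

/-! ### The example -/

theorem M_neg_one_two : M (-1) 2 = 0 := by
  rw [M]
  simp [prec]

theorem M_neg_three_two : M (-3) 2 = -1 := by
  rw [M]
  simp [prec, M_neg_one_two]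

theorem M_two_five : M 2 5 = 0 := by
  rw [M]
  simp [prec]

theorem M_neg_three_five : M (-3) 5 = -1 := by
  rw [M]
  simp [prec, M_two_five]

theorem L_two : L 2 = 1 := by
  unfold L
  rw [if_pos (by decide)]
  norm_num

theorem L_five : L 5 = -3 := by
  unfold L
  rw [if_neg (by decide)]
  norm_num

theorem LCR_two_five : LCR 2 5 = -3 := by
  unfold LCR
  rw [L_two, L_five, if_pos (by simp [prec])]

theorem LCR_five_two : LCR 5 2 = -3 := by
  unfold LCR
  rw [L_two, L_five, if_neg (by simp [prec])]

open Classical in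
/-- The input `{2, 5}`. -/
def F₀ (n : ℕ) : Finset (MvPolynomial (Fin n) ℤ) := {C 2, C 5}

theorem entry_C (m : MonomialOrder (Fin n)) (a c : ℤ) :
    entry m 0 a (C c) = C (a - M a c * c) := by
  unfold entry
  rw [m.degree_C, m.leadingCoeff_C, tsub_self, ← C_apply, ← C_apply, ← C_mul, ← C_sub]

theorem spoly_two_five (m : MonomialOrder (Fin n)) : spoly m (C 2) (C 5) = C (-3) := by
  unfold spoly
  rw [m.degree_C, m.degree_C, m.leadingCoeff_C, m.leadingCoeff_C, sup_idem, LCR_two_five,
    entry_C, entry_C, M_neg_three_two, M_neg_three_five, ← C_sub]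
  norm_num

theorem spoly_five_two (m : MonomialOrder (Fin n)) : spoly m (C 5) (C 2) = C 3 := by
  unfold spoly
  rw [m.degree_C, m.degree_C, m.leadingCoeff_C, m.leadingCoeff_C, sup_idem, LCR_five_two,
    entry_C, entry_C, M_neg_three_two, M_neg_three_five, ← C_sub]
  norm_num

theorem red_C (m : MonomialOrder (Fin n)) {c a b : ℤ} (hc : (C c : MvPolynomial (Fin n) ℤ) ∈ F₀ n)
    (hc0 : c ≠ 0) (ha : a ≠ 0) (h : prec (a - b * c) a) :
    Red m (F₀ n) (C a) (C (a - b * c)) := by
  classical
  refine ⟨C c, hc, ?_, b, 0, ?_, ?_, ?_⟩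
  · rw [Ne, C_eq_zero]; exact hc0
  · rw [m.degree_C, add_zero, coeff_C, if_pos rfl]; exact ha
  · rw [m.degree_C, add_zero, coeff_C, if_pos rfl, m.leadingCoeff_C]; exact h
  · rw [← C_apply, ← C_mul, ← C_sub]

theorem two_mem : (C 2 : MvPolynomial (Fin n) ℤ) ∈ F₀ n := by simp [F₀]

theorem five_mem : (C 5 : MvPolynomial (Fin n) ℤ) ∈ F₀ n := by simp [F₀]

theorem irr_zero (m : MonomialOrder (Fin n)) (h' : MvPolynomial (Fin n) ℤ) :
    ¬ Red m (F₀ n) 0 h' := by
  rintro ⟨f, _, _, b, u, hc, _⟩
  exact hc (coeff_zero _)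

theorem nf_neg_three (m : MonomialOrder (Fin n)) : IsNF m (F₀ n) (C (-3)) 0 := by
  refine ⟨?_, irr_zero m⟩
  have h1 := red_C m (n := n) (a := -3) (b := -1) five_mem (by norm_num) (by norm_num)
    (by simp [prec])
  have h2 := red_C m (n := n) (a := 2) (b := 1) two_mem (by norm_num) (by norm_num)
    (by simp [prec])
  norm_num at h1 h2
  exact (Relation.ReflTransGen.single (by simpa using h1)).tail (by simpa using h2)

theorem nf_three (m : MonomialOrder (Fin n)) : IsNF m (F₀ n) (C 3) 0 := by
  refine ⟨?_, irr_zero m⟩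
  have h1 := red_C m (n := n) (a := 3) (b := 1) five_mem (by norm_num) (by norm_num)
    (by simp [prec])
  have h2 := red_C m (n := n) (a := -2) (b := -1) two_mem (by norm_num) (by norm_num)
    (by simp [prec])
  norm_num at h1 h2
  exact (Relation.ReflTransGen.single (by simpa using h1)).tail (by simpa using h2)

theorem nf_neg_three' (m : MonomialOrder (Fin n)) : IsNF m (F₀ n) (C (-3)) (C (-1)) := by
  classical
  constructor
  · have h1 := red_C m (n := n) (a := -3) (b := -1) two_mem (by norm_num) (by norm_num)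
      (by simp [prec])
    norm_num at h1
    exact Relation.ReflTransGen.single (by simpa using h1)
  · rintro h' ⟨f, hf, _, b, u, hc, hb, _⟩
    have hf' : f = C 2 ∨ f = C 5 := by
      simpa [F₀] using hf
    have hfd : m.degree f = 0 := by
      rcases hf' with rfl | rfl <;> exact m.degree_C _
    rw [hfd, add_zero, coeff_C] at hc hb
    have hu : 0 = u := by
      by_contra h
      exact hc (if_neg h)
    rw [if_pos hu] at hb
    unfold prec at hb
    rcases hf' with rfl | rfl
    · rw [m.leadingCoeff_C] at hb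
      rw [Int.abs_eq_natAbs, Int.abs_eq_natAbs] at hb
      omega
    · rw [m.leadingCoeff_C] at hb
      rw [Int.abs_eq_natAbs, Int.abs_eq_natAbs] at hb
      omega

open Classical in
/-- A normal form algorithm that sends `-3` and `3` to `0` modulo `{2, 5}`. -/
def S₀ (m : MonomialOrder (Fin n)) (F : Finset (MvPolynomial (Fin n) ℤ))
    (g : MvPolynomial (Fin n) ℤ) : MvPolynomial (Fin n) ℤ :=
  if F = F₀ n ∧ (g = C (-3) ∨ g = C 3) then 0 else (exists_nf m F g).choose

theorem isNFAlgorithm (m : MonomialOrder (Fin n)) : IsNFAlgorithm m (S₀ m) := by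
  intro F g
  unfold S₀
  split_ifs with h
  · obtain ⟨rfl, rfl | rfl⟩ := h
    · exact nf_neg_three m
    · exact nf_three m
  · exact (exists_nf m F g).choose_spec

theorem allPairs_F₀ : allPairs (F₀ n) = {s(C 2, C 5)} := by
  classical
  have hne : (C 2 : MvPolynomial (Fin n) ℤ) ≠ C 5 := by
    intro h
    rw [C_inj] at h
    norm_num at h
  ext x
  unfold allPairs F₀
  simp only [Finset.mem_image, Finset.mem_offDiag, Finset.mem_insert, Finset.mem_singleton,
    Prod.exists]
  constructor
  · rintro ⟨a, b, ⟨rfl | rfl, rfl | rfl, h⟩, rfl⟩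
    · exact absurd rfl h
    · rfl
    · exact Sym2.eq_swap
    · exact absurd rfl h
  · rintro rfl
    exact ⟨C 2, C 5, ⟨Or.inl rfl, Or.inr rfl, hne⟩, rfl⟩

theorem S₀_spoly (m : MonomialOrder (Fin n)) {f₁ f₂ : MvPolynomial (Fin n) ℤ}
    (h : s(f₁, f₂) ∈ allPairs (F₀ n)) : S₀ m (F₀ n) (spoly m f₁ f₂) = 0 := by
  rw [allPairs_F₀, Finset.mem_singleton, Sym2.eq_iff] at h
  unfold S₀
  rcases h with ⟨rfl, rfl⟩ | ⟨rfl, rfl⟩
  · rw [spoly_two_five, if_pos ⟨rfl, Or.inl rfl⟩]
  · rw [spoly_five_two, if_pos ⟨rfl, Or.inr rfl⟩]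

theorem not_isGroebner (m : MonomialOrder (Fin n)) : ¬ IsGroebner m (F₀ n) := by
  intro h
  have h1 := (h (C (-3))).unique (nf_neg_three m) (nf_neg_three' m)
  have h2 : (C 0 : MvPolynomial (Fin n) ℤ) = C (-1) := by rw [C_0]; exact h1
  rw [C_inj] at h2
  norm_num at h2

/-- **Main theorem.** For every number `n` of variables and every admissible term order `m`,
Algorithm A' is not correct. Indeed, for the input `F = {2, 5}` and a suitable normal form
algorithm `S`, the algorithm has only one possible run, which stops after one step with output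
`F`, and `F` is not a Groebner basis. -/
theorem result (n : ℕ) (m : MonomialOrder (Fin n)) :
    ¬ Correct m ∧
    ∃ (F : Finset (MvPolynomial (Fin n) ℤ)) (S : _ → _ → _), IsNFAlgorithm m S ∧
      F = {C 2, C 5} ∧ (∀ y, Step m S (F, allPairs F) y ↔ y = (F, ∅)) ∧ ¬ IsGroebner m F := by
  classical
  have hstep : ∀ y, Step m (S₀ m) (F₀ n, allPairs (F₀ n)) y ↔ y = (F₀ n, ∅) := by
    intro y
    constructor
    · rintro ⟨f₁, f₂, hmem, h, _⟩
      have h1 := h (S₀_spoly m hmem)
      rw [h1]
      have h2 : (allPairs (F₀ n)).erase s(f₁, f₂) = ∅ := by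
        dsimp only at hmem
        rw [allPairs_F₀, Finset.mem_singleton] at hmem
        rw [allPairs_F₀, hmem]
        simp
      exact Prod.ext rfl h2
    · rintro rfl
      refine ⟨C 2, C 5, ?_, ?_, ?_⟩
      · dsimp only
        rw [allPairs_F₀]
        exact Finset.mem_singleton_self _
      · intro _
        refine Prod.ext rfl ?_
        dsimp only
        rw [allPairs_F₀]
        simp
      · intro hne
        exact absurd (S₀_spoly m (by rw [allPairs_F₀]; exact Finset.mem_singleton_self _)) hne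
  refine ⟨fun hcor => ?_, F₀ n, S₀ m, isNFAlgorithm m, rfl, hstep, not_isGroebner m⟩
  have h1 := (hcor (F₀ n) (S₀ m) (isNFAlgorithm m)).2 (F₀ n)
    (Relation.ReflTransGen.single ((hstep _).2 rfl))
  exact not_isGroebner m h1.1

end

end Pool.Agent.Results.MP_698df0_al.IntegerPair
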